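import Mathlib

/-!
# Freeing finitely many primes does not change the question

`S` is the set of sums of two squares.  For a set `E` of primes, `Free E` is the set of the
numbers `d * s` where `s` is a sum of two squares and all prime factors of `d ≥ 1` are in `E`.

Theorem (`result`): `S` has the translation property iff `Free D` has it for some finite set `D`
of primes.  More generally (`of_finite_diff`) the translation property passes from `Free E'` to
`Free E` if `E ⊆ E'` and `E' \ E` is finite.  The proof: the good translations for `n` contain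
all finite sums of consecutive members of a sequence, hence multiples of every modulus
(`exists_multiple`).
-/

set_option autoImplicit false

namespace Pool.Agent.Results.MP_5d5287_nt.FiniteFree

/-- The set of sums of two squares of natural numbers. -/
def S : Set ℕ := {m | ∃ x y : ℕ, m = x ^ 2 + y ^ 2}

/-- The translation property: for each `n ≥ 1` the pattern of `A` on `[1, n]` reappears on
`[1 + t, n + t]` for some `t ≥ 1`. -/
def TranslationProperty (A : Set ℕ) : Prop :=
  ∀ n : ℕ, 1 ≤ n → ∃ t : ℕ, 1 ≤ t ∧ ∀ a : ℕ, 1 ≤ a → a ≤ n → (a ∈ A ↔ a + t ∈ A)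

/-- The numbers `d * s` with `s` a sum of two squares and `d ≥ 1` a product of primes of `E`. -/
def Free (E : Set ℕ) : Set ℕ :=
  {m | ∃ d s : ℕ, 1 ≤ d ∧ (∀ p : ℕ, p.Prime → p ∣ d → p ∈ E) ∧ s ∈ S ∧ m = d * s}

theorem mem_S_iff {m : ℕ} :
    m ∈ S ↔ ∀ q ∈ m.primeFactors, q % 4 = 3 → Even (padicValNat q m) :=
  Nat.eq_sq_add_sq_iff

theorem even_of_mem_S {m q : ℕ} (hm : m ≠ 0) (h : m ∈ S) (hq : q.Prime) (h4 : q % 4 = 3) :
    Even (padicValNat q m) := by
  by_cases hqm : q ∣ m
  · exact mem_S_iff.1 h q (Nat.mem_primeFactors.2 ⟨hq, hqm, hm⟩) h4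
  · rw [padicValNat.eq_zero_of_not_dvd hqm]
    exact ⟨0, rfl⟩

theorem mem_Free_of_even (E : Set ℕ) (m : ℕ) : m ≠ 0 →
    (∀ q : ℕ, q.Prime → q % 4 = 3 → q ∉ E → Even (padicValNat q m)) → m ∈ Free E := by
  induction m using Nat.strong_induction_on with
  | _ m ih =>
    intro hm h
    by_cases hex : ∃ p : ℕ, p.Prime ∧ p ∣ m ∧ p ∈ E
    · obtain ⟨p, hp, ⟨r, rfl⟩, hpE⟩ := hex
      have hr : r ≠ 0 := fun h0 => hm (by rw [h0, mul_zero])
      have hlt : r < p * r := by
        have := hp.two_le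
        nlinarith [Nat.pos_of_ne_zero hr]
      obtain ⟨d, s, hd, hdE, hs, hds⟩ := ih r hlt hr (fun q hq h4 hqE => by
        have : Fact q.Prime := ⟨hq⟩
        have h1 := h q hq h4 hqE
        rw [padicValNat.mul hp.ne_zero hr] at h1
        have h2 : ¬ q ∣ p := by
          intro hqp
          exact hqE (((Nat.prime_dvd_prime_iff_eq hq hp).1 hqp) ▸ hpE)
        rwa [padicValNat.eq_zero_of_not_dvd h2, zero_add] at h1)
      refine ⟨p * d, s, Nat.mul_pos hp.pos hd, fun q hq hqd => ?_, hs, by rw [hds, mul_assoc]⟩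
      rcases (Nat.Prime.dvd_mul hq).1 hqd with h1 | h1
      · exact ((Nat.prime_dvd_prime_iff_eq hq hp).1 h1) ▸ hpE
      · exact hdE q hq h1
    · refine ⟨1, m, le_rfl, fun p hp hp1 => absurd (Nat.dvd_one.1 hp1) hp.ne_one, ?_,
        (one_mul m).symm⟩
      rw [mem_S_iff]
      intro q hq h4
      obtain ⟨hqp, hqm, -⟩ := Nat.mem_primeFactors.1 hq
      exact h q hqp h4 (fun hqE => hex ⟨q, hqp, hqm, hqE⟩)

/-- `m ≥ 1` is in `Free E` iff each prime `q ≡ 3 mod 4` outside `E` divides `m` to an even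
power. -/
theorem mem_Free_iff {E : Set ℕ} {m : ℕ} (hm : m ≠ 0) :
    m ∈ Free E ↔ ∀ q : ℕ, q.Prime → q % 4 = 3 → q ∉ E → Even (padicValNat q m) := by
  constructor
  · rintro ⟨d, s, hd, hdE, hs, rfl⟩ q hq h4 hqE
    have : Fact q.Prime := ⟨hq⟩
    have hs0 : s ≠ 0 := fun h0 => hm (by rw [h0, mul_zero])
    rw [padicValNat.mul (by omega) hs0,
      padicValNat.eq_zero_of_not_dvd (fun h => hqE (hdE q hq h)), zero_add]
    exact even_of_mem_S hs0 hs hq h4
  · exact mem_Free_of_even E m hm

theorem Free_empty : Free ∅ = S := by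
  ext m
  constructor
  · rintro ⟨d, s, hd, hdE, hs, rfl⟩
    rcases eq_or_ne d 1 with rfl | h
    · rwa [one_mul]
    · obtain ⟨p, hp, hpd⟩ := Nat.exists_prime_and_dvd h
      exact absurd (hdE p hp hpd) (Set.notMem_empty p)
  · intro h
    exact ⟨1, m, le_rfl, fun p hp hp1 => absurd (Nat.dvd_one.1 hp1) hp.ne_one, h,
      (one_mul m).symm⟩

/-- a high power in `t` keeps the valuation of `a` -/
theorem val_add {q a t n : ℕ} (hq : q.Prime) (ha : 1 ≤ a) (han : a ≤ n)
    (ht : q ^ (n + 1) ∣ t) : padicValNat q (a + t) = padicValNat q a := by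
  have : Fact q.Prime := ⟨hq⟩
  have ha0 : a ≠ 0 := by omega
  have hv : padicValNat q a ≤ n := by
    have h1 : q ^ padicValNat q a ≤ a := Nat.le_of_dvd ha pow_padicValNat_dvd
    have h2 : padicValNat q a < q ^ padicValNat q a := Nat.lt_pow_self hq.one_lt
    omega
  have hat : a + t ≠ 0 := by omega
  apply le_antisymm
  · by_contra hcon
    push Not at hcon
    have h1 : q ^ (padicValNat q a + 1) ∣ a + t :=
      (pow_dvd_pow q hcon).trans pow_padicValNat_dvd
    have h2 : q ^ (padicValNat q a + 1) ∣ t := (pow_dvd_pow q (by omega)).trans ht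
    have h3 : q ^ (padicValNat q a + 1) ∣ a := (Nat.dvd_add_left h2).1 h1
    rw [padicValNat_dvd_iff_le ha0] at h3
    omega
  · rw [← padicValNat_dvd_iff_le hat]
    exact dvd_add pow_padicValNat_dvd ((pow_dvd_pow q (by omega)).trans ht)

/-- a set with the translation property has, for each `n`, good translations which are multiples
of a given modulus -/
theorem exists_multiple (A : Set ℕ) (hA : TranslationProperty A) (n M : ℕ) (hn : 1 ≤ n)
    (hM : 1 ≤ M) :
    ∃ t : ℕ, 1 ≤ t ∧ M ∣ t ∧ ∀ a : ℕ, 1 ≤ a → a ≤ n → (a ∈ A ↔ a + t ∈ A) := by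
  have hA' : ∀ k : ℕ, ∃ t : ℕ, 1 ≤ t ∧ ∀ a : ℕ, 1 ≤ a → a ≤ k → (a ∈ A ↔ a + t ∈ A) := by
    intro k
    obtain ⟨t, ht, h⟩ := hA (k + 1) (by omega)
    exact ⟨t, ht, fun a ha hak => h a ha (by omega)⟩
  choose f hf1 hf2 using hA'
  let N : ℕ → ℕ := fun k => Nat.rec n (fun _ m => m + f m) k
  have hN0 : N 0 = n := rfl
  have hNs : ∀ k, N (k + 1) = N k + f (N k) := fun k => rfl
  have hmono : StrictMono N := strictMono_nat_of_lt_succ (fun k => by
    rw [hNs]
    have := hf1 (N k)
    omega)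
  have hnN : ∀ k, n ≤ N k := fun k => by
    rw [← hN0]
    exact hmono.monotone (Nat.zero_le k)
  have key : ∀ i k a : ℕ, 1 ≤ a → a ≤ n → (a ∈ A ↔ a + (N (i + k) - N i) ∈ A) := by
    intro i k
    induction k with
    | zero =>
      intro a _ _
      rw [Nat.add_zero, Nat.sub_self, Nat.add_zero]
    | succ k ih =>
      intro a ha han
      have h1 : N i ≤ N (i + k) := hmono.monotone (by omega)
      have h2 := hnN i
      have h3 : a + (N (i + (k + 1)) - N i) = a + (N (i + k) - N i) + f (N (i + k)) := by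
        rw [← Nat.add_assoc i k 1, hNs]
        omega
      rw [h3, ih a ha han]
      exact hf2 (N (i + k)) _ (by omega) (by omega)
  have : NeZero M := ⟨by omega⟩
  obtain ⟨i, j, hij, hijM⟩ := Finite.exists_ne_map_eq_of_infinite
    (fun k : ℕ => (Nat.cast (N k) : ZMod M))
  have hfin : ∀ i j : ℕ, i < j → (Nat.cast (N i) : ZMod M) = Nat.cast (N j) →
      ∃ t : ℕ, 1 ≤ t ∧ M ∣ t ∧ ∀ a : ℕ, 1 ≤ a → a ≤ n → (a ∈ A ↔ a + t ∈ A) := by
    intro i j hlt hM'
    have h1 := hmono hlt
    refine ⟨N j - N i, by omega, ?_, fun a ha han => ?_⟩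
    · rw [← ZMod.natCast_eq_zero_iff, Nat.cast_sub h1.le, ← hM', sub_self]
    · have h2 := key i (j - i) a ha han
      rwa [Nat.add_sub_cancel' hlt.le] at h2
  rcases Nat.lt_or_gt_of_ne hij with h | h
  · exact hfin i j h hijM
  · exact hfin j i h hijM.symm

/-- the translation property passes from `Free E'` to `Free E` if `E' \ E` is finite -/
theorem of_finite_diff (E E' : Set ℕ) (hE' : ∀ q ∈ E', q.Prime) (hsub : E ⊆ E')
    (hfin : (E' \ E).Finite) (h : TranslationProperty (Free E')) :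
    TranslationProperty (Free E) := by
  intro n hn
  obtain ⟨t, ht1, htM, ht⟩ := exists_multiple (Free E') h n
    (∏ q ∈ hfin.toFinset, q ^ (n + 1)) hn (by
      have : 0 < ∏ q ∈ hfin.toFinset, q ^ (n + 1) :=
        Finset.prod_pos (fun q hq =>
          pow_pos (hE' q ((Set.Finite.mem_toFinset hfin).1 hq).1).pos _)
      omega)
  refine ⟨t, ht1, fun a ha han => ?_⟩
  have hval : ∀ q, q ∈ E' → q ∉ E → padicValNat q (a + t) = padicValNat q a := by
    intro q hqE' hqE
    have h1 : q ^ (n + 1) ∣ ∏ q ∈ hfin.toFinset, q ^ (n + 1) :=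
      Finset.dvd_prod_of_mem (fun q => q ^ (n + 1))
        ((Set.Finite.mem_toFinset hfin).2 ⟨hqE', hqE⟩)
    exact val_add (hE' q hqE') ha han (h1.trans htM)
  have h1 := ht a ha han
  rw [mem_Free_iff (by omega : a ≠ 0), mem_Free_iff (by omega : a + t ≠ 0)] at h1 ⊢
  constructor
  · intro h2 q hq h4 hqE
    by_cases hqE' : q ∈ E'
    · rw [hval q hqE' hqE]
      exact h2 q hq h4 hqE
    · exact h1.1 (fun r hr hr4 hrE' => h2 r hr hr4 (fun hrE => hrE' (hsub hrE))) q hq h4 hqE'
  · intro h2 q hq h4 hqE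
    by_cases hqE' : q ∈ E'
    · rw [← hval q hqE' hqE]
      exact h2 q hq h4 hqE
    · exact h1.2 (fun r hr hr4 hrE' => h2 r hr hr4 (fun hrE => hrE' (hsub hrE))) q hq h4 hqE'

/-- `S` has the translation property iff `Free D` has it for some finite set `D` of primes. -/
theorem result : TranslationProperty S ↔
    ∃ D : Finset ℕ, (∀ q ∈ D, q.Prime) ∧ TranslationProperty (Free (D : Set ℕ)) := by
  constructor
  · intro h
    refine ⟨∅, fun q hq => absurd hq (Finset.notMem_empty q), ?_⟩
    rw [Finset.coe_empty, Free_empty]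
    exact h
  · rintro ⟨D, hD, h⟩
    rw [← Free_empty]
    exact of_finite_diff ∅ (D : Set ℕ) (fun q hq => hD q (Finset.mem_coe.1 hq))
      (Set.empty_subset _) (by
        rw [Set.sdiff_empty]
        exact Finset.finite_toSet D) h

end Pool.Agent.Results.MP_5d5287_nt.FiniteFree
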