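import Pool.Agent.helper59.TP.SelRand

/-!
# The translation property for almost every random perturbation of the sums of two squares

`S` is the set of sums of two squares.  For a set `F` of primes, `Free F` is the set of the
numbers `d * s` where `s` is a sum of two squares and all prime factors of `d ≥ 1` are in `F`.
For `m ≥ 1` this means that each prime `q ≡ 3 mod 4` outside `F` divides `m` to an even power
(`mem_Free_iff`); in particular `Free ∅ = S` (`Free_empty`).

Theorem (`result`): let `Q` be a set of primes and let `E q`, `q ∈ Q`, be independent events of a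
probability space with `P (E q) ≥ q ^ (-o(1))`.  Let `R(ω)` be the random set of the `q ∈ Q` for
which `E q` happens.  Then almost surely, for each `n`, there is a translation by some `t ≥ 1`
which keeps, for all `1 ≤ a ≤ n`, the exact power of every prime of `Q` outside `R(ω)`.  So every
set which is determined by the exponents of the primes of `Q` outside `R(ω)` has the translation
property, and if `Q` contains the primes `≡ 3 mod 4`, then `Free F` has the translation property
for each set `F` of primes containing `R(ω)`, in particular `Free (R(ω))`.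

Proof (in `Pool.Agent.helper59.TP`): Selberg's weights give, for a fixed `n`, more than
`N ^ (1 - ε)` numbers `s ≤ N` for which the product of the `a + M s`, `a ≤ n`, has no prime factor
between `Y` and `N ^ c`, so at most `K` prime factors above `Y`, where `c` and `K` depend only on
`n`.  Two such `s` rarely have a common prime factor of this kind, so the events `these prime
factors are all in R(ω)` are almost independent in pairs, and a second moment argument shows that
almost surely one of them happens.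
-/

set_option autoImplicit false

namespace Pool.Agent.Results.MP_5d5287_nt.RandomPerturbation

open MeasureTheory

/-- The set of sums of two squares of natural numbers. -/
def S : Set ℕ := {m | ∃ x y : ℕ, m = x ^ 2 + y ^ 2}

/-- The translation property: for each `n ≥ 1` the pattern of `A` on `[1, n]` reappears on
`[1 + t, n + t]` for some `t ≥ 1`. -/
def TranslationProperty (A : Set ℕ) : Prop :=
  ∀ n : ℕ, 1 ≤ n → ∃ t : ℕ, 1 ≤ t ∧ ∀ a : ℕ, 1 ≤ a → a ≤ n → (a ∈ A ↔ a + t ∈ A)

/-- The numbers `d * s` with `s` a sum of two squares and `d ≥ 1` a product of primes of `F`. -/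
def Free (F : Set ℕ) : Set ℕ :=
  {m | ∃ d s : ℕ, 1 ≤ d ∧ (∀ p : ℕ, p.Prime → p ∣ d → p ∈ F) ∧ s ∈ S ∧ m = d * s}

/-- For positive integers, membership in `A` depends only on the exponents of the primes in
`T`. -/
def DeterminedBy (T : Set ℕ) (A : Set ℕ) : Prop :=
  ∀ m m' : ℕ, 1 ≤ m → 1 ≤ m' → (∀ q ∈ T, padicValNat q m = padicValNat q m') →
    (m ∈ A ↔ m' ∈ A)

theorem mem_S_iff {m : ℕ} :
    m ∈ S ↔ ∀ q ∈ m.primeFactors, q % 4 = 3 → Even (padicValNat q m) :=
  Nat.eq_sq_add_sq_iff

theorem even_of_mem_S {m q : ℕ} (hm : m ≠ 0) (h : m ∈ S) (hq : q.Prime) (h4 : q % 4 = 3) :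
    Even (padicValNat q m) := by
  by_cases hqm : q ∣ m
  · exact mem_S_iff.1 h q (Nat.mem_primeFactors.2 ⟨hq, hqm, hm⟩) h4
  · rw [padicValNat.eq_zero_of_not_dvd hqm]
    exact ⟨0, rfl⟩

theorem mem_Free_of_even (E : Set ℕ) (m : ℕ) : m ≠ 0 →
    (∀ q : ℕ, q.Prime → q % 4 = 3 → q ∉ E → Even (padicValNat q m)) → m ∈ Free E := by
  induction m using Nat.strong_induction_on with
  | _ m ih =>
    intro hm h
    by_cases hex : ∃ p : ℕ, p.Prime ∧ p ∣ m ∧ p ∈ E
    · obtain ⟨p, hp, ⟨r, rfl⟩, hpE⟩ := hex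
      have hr : r ≠ 0 := fun h0 => hm (by rw [h0, mul_zero])
      have hlt : r < p * r := by
        have := hp.two_le
        nlinarith [Nat.pos_of_ne_zero hr]
      obtain ⟨d, s, hd, hdE, hs, hds⟩ := ih r hlt hr (fun q hq h4 hqE => by
        have : Fact q.Prime := ⟨hq⟩
        have h1 := h q hq h4 hqE
        rw [padicValNat.mul hp.ne_zero hr] at h1
        have h2 : ¬ q ∣ p := by
          intro hqp
          exact hqE (((Nat.prime_dvd_prime_iff_eq hq hp).1 hqp) ▸ hpE)
        rwa [padicValNat.eq_zero_of_not_dvd h2, zero_add] at h1)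
      refine ⟨p * d, s, Nat.mul_pos hp.pos hd, fun q hq hqd => ?_, hs, by rw [hds, mul_assoc]⟩
      rcases (Nat.Prime.dvd_mul hq).1 hqd with h1 | h1
      · exact ((Nat.prime_dvd_prime_iff_eq hq hp).1 h1) ▸ hpE
      · exact hdE q hq h1
    · refine ⟨1, m, le_rfl, fun p hp hp1 => absurd (Nat.dvd_one.1 hp1) hp.ne_one, ?_,
        (one_mul m).symm⟩
      rw [mem_S_iff]
      intro q hq h4
      obtain ⟨hqp, hqm, -⟩ := Nat.mem_primeFactors.1 hq
      exact h q hqp h4 (fun hqE => hex ⟨q, hqp, hqm, hqE⟩)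

/-- `m ≥ 1` is in `Free F` iff each prime `q ≡ 3 mod 4` outside `F` divides `m` to an even
power. -/
theorem mem_Free_iff {E : Set ℕ} {m : ℕ} (hm : m ≠ 0) :
    m ∈ Free E ↔ ∀ q : ℕ, q.Prime → q % 4 = 3 → q ∉ E → Even (padicValNat q m) := by
  constructor
  · rintro ⟨d, s, hd, hdE, hs, rfl⟩ q hq h4 hqE
    have : Fact q.Prime := ⟨hq⟩
    have hs0 : s ≠ 0 := fun h0 => hm (by rw [h0, mul_zero])
    rw [padicValNat.mul (by omega) hs0,
      padicValNat.eq_zero_of_not_dvd (fun h => hqE (hdE q hq h)), zero_add]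
    exact even_of_mem_S hs0 hs hq h4
  · exact mem_Free_of_even E m hm

theorem Free_empty : Free ∅ = S := by
  ext m
  constructor
  · rintro ⟨d, s, hd, hdE, hs, rfl⟩
    rcases eq_or_ne d 1 with rfl | h
    · rwa [one_mul]
    · obtain ⟨p, hp, hpd⟩ := Nat.exists_prime_and_dvd h
      exact absurd (hdE p hp hpd) (Set.notMem_empty p)
  · intro h
    exact ⟨1, m, le_rfl, fun p hp hp1 => absurd (Nat.dvd_one.1 hp1) hp.ne_one, h,
      (one_mul m).symm⟩

/-- a high power in `t` keeps the valuation of `a` -/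
theorem val_add {q a t n : ℕ} (hq : q.Prime) (ha : 1 ≤ a) (han : a ≤ n)
    (ht : q ^ (n + 1) ∣ t) : padicValNat q (a + t) = padicValNat q a := by
  have : Fact q.Prime := ⟨hq⟩
  have ha0 : a ≠ 0 := by omega
  have hv : padicValNat q a ≤ n := by
    have h1 : q ^ padicValNat q a ≤ a := Nat.le_of_dvd ha pow_padicValNat_dvd
    have h2 : padicValNat q a < q ^ padicValNat q a := Nat.lt_pow_self hq.one_lt
    omega
  have hat : a + t ≠ 0 := by omega
  apply le_antisymm
  · by_contra hcon
    push Not at hcon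
    have h1 : q ^ (padicValNat q a + 1) ∣ a + t :=
      (pow_dvd_pow q hcon).trans pow_padicValNat_dvd
    have h2 : q ^ (padicValNat q a + 1) ∣ t := (pow_dvd_pow q (by omega)).trans ht
    have h3 : q ^ (padicValNat q a + 1) ∣ a := (Nat.dvd_add_left h2).1 h1
    rw [padicValNat_dvd_iff_le ha0] at h3
    omega
  · rw [← padicValNat_dvd_iff_le hat]
    exact dvd_add pow_padicValNat_dvd ((pow_dvd_pow q (by omega)).trans ht)

/-- Let `Q` be a set of primes, let `E q` (`q ∈ Q`) be independent events of a probability space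
such that for each `ε > 0` the probability of `E q` is at least `q ^ (-ε)` for all large `q ∈ Q`.
Then for almost all `ω`, with `R = {q ∈ Q | ω ∈ E q}`:
* for each `n` some translation by `t ≥ 1` keeps the exact power of each prime of `Q` outside `R`
  in each of the numbers `1, ..., n`;
* each set determined by the exponents of the primes of `Q` outside `R` has the translation
  property;
* if `Q` contains all primes `≡ 3 mod 4`, then `Free F` has the translation property for each set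
  `F` of primes which contains `R`. -/
theorem result {Ω : Type*} [MeasurableSpace Ω] (μ : Measure Ω) [IsProbabilityMeasure μ]
    (Q : Set ℕ) (hQ : ∀ q ∈ Q, q.Prime) (E : ℕ → Set Ω) (hE : ∀ q ∈ Q, MeasurableSet (E q))
    (hind : ∀ A : Finset ℕ, (∀ q ∈ A, q ∈ Q) → μ (⋂ q ∈ A, E q) = ∏ q ∈ A, μ (E q))
    (hP : ∀ ε : ℝ, 0 < ε → ∃ q0 : ℕ, ∀ q ∈ Q, q0 ≤ q →
      ENNReal.ofReal ((q : ℝ) ^ (-ε)) ≤ μ (E q)) :
    ∀ᵐ ω ∂μ,
      (∀ n : ℕ, ∃ t : ℕ, 1 ≤ t ∧ ∀ a : ℕ, 1 ≤ a → a ≤ n → ∀ q ∈ Q, ω ∉ E q →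
        padicValNat q (a + t) = padicValNat q a) ∧
      (∀ A : Set ℕ, DeterminedBy {q ∈ Q | ω ∉ E q} A → TranslationProperty A) ∧
      ((∀ q : ℕ, q.Prime → q % 4 = 3 → q ∈ Q) → ∀ F : Set ℕ, (∀ q ∈ F, q.Prime) →
        {q ∈ Q | ω ∈ E q} ⊆ F → TranslationProperty (Free F)) := by
  classical
  set E' : ℕ → Set Ω := fun q => if q ∈ Q then E q else Set.univ with hE'
  have hE'1 : ∀ q ∈ Q, E' q = E q := fun q hq => if_pos hq
  have hE'2 : ∀ q, q ∉ Q → E' q = Set.univ := fun q hq => if_neg hq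
  have hmeas : ∀ q, q.Prime → MeasurableSet (E' q) := by
    intro q _
    by_cases hq : q ∈ Q
    · rw [hE'1 q hq]
      exact hE q hq
    · rw [hE'2 q hq]
      exact MeasurableSet.univ
  have hind' : ∀ A : Finset ℕ, (∀ p ∈ A, p.Prime) →
      μ.real (⋂ p ∈ A, E' p) = ∏ p ∈ A, μ.real (E' p) := by
    intro A _
    have h1 : (⋂ p ∈ A, E' p) = ⋂ p ∈ A.filter (fun p => p ∈ Q), E p := by
      ext ω
      simp only [Set.mem_iInter, Finset.mem_filter]
      constructor
      · rintro h p ⟨hp, hpQ⟩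
        rw [← hE'1 p hpQ]
        exact h p hp
      · intro h p hp
        by_cases hpQ : p ∈ Q
        · rw [hE'1 p hpQ]
          exact h p ⟨hp, hpQ⟩
        · rw [hE'2 p hpQ]
          exact Set.mem_univ ω
    have h2 : ∏ p ∈ A, μ.real (E' p) = ∏ p ∈ A.filter (fun p => p ∈ Q), μ.real (E p) := by
      rw [Finset.prod_filter]
      refine Finset.prod_congr rfl (fun p _ => ?_)
      by_cases hpQ : p ∈ Q
      · rw [hE'1 p hpQ, if_pos hpQ]
      · rw [hE'2 p hpQ, if_neg hpQ]
        simp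
    rw [h1, h2]
    have h3 := hind (A.filter (fun p => p ∈ Q)) (fun q hq => (Finset.mem_filter.1 hq).2)
    unfold Measure.real
    rw [h3, ENNReal.toReal_prod]
  have hP' : ∀ ε : ℝ, 0 < ε → ∃ q0 : ℕ, ∀ q : ℕ, q.Prime → q0 ≤ q →
      (q : ℝ) ^ (-ε) ≤ μ.real (E' q) := by
    intro ε hε
    obtain ⟨q0, hq0⟩ := hP ε hε
    refine ⟨q0, fun q hq hqq => ?_⟩
    by_cases hqQ : q ∈ Q
    · rw [hE'1 q hqQ]
      have h1 := hq0 q hqQ hqq
      exact (ENNReal.ofReal_le_iff_le_toReal (measure_ne_top μ _)).1 h1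
    · rw [hE'2 q hqQ]
      have h1 : μ.real (Set.univ : Set Ω) = 1 := by simp
      rw [h1]
      refine Real.rpow_le_one_of_one_le_of_nonpos ?_ (by linarith)
      exact_mod_cast hq.one_lt.le
  have hae : ∀ᵐ ω ∂μ, ∀ n : ℕ, ∃ Y t : ℕ, n + 1 ≤ Y ∧ 1 ≤ t ∧
      (Nat.factorial Y) ^ (n + 1 + 1) ∣ t ∧ ∀ p : ℕ, p.Prime → Y < p →
        (∃ a, 1 ≤ a ∧ a ≤ n + 1 ∧ p ∣ a + t) → ω ∈ E' p := by
    rw [ae_all_iff]
    intro n
    have h1 := Pool.Agent.helper59.Sel.prob_fail μ E' hmeas hind' hP' (n + 1) (by omega)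
    rw [ae_iff]
    refine measure_mono_null ?_ h1
    intro ω hω Y t hY ht htd
    by_contra hcon
    apply hω
    refine ⟨Y, t, hY, ht, htd, fun p hp hYp hpa => ?_⟩
    by_contra hωp
    exact hcon ⟨p, hp, hYp, hpa, hωp⟩
  filter_upwards [hae] with ω hω
  have hval : ∀ n : ℕ, ∃ t : ℕ, 1 ≤ t ∧ ∀ a : ℕ, 1 ≤ a → a ≤ n → ∀ q ∈ Q, ω ∉ E q →
        padicValNat q (a + t) = padicValNat q a := by
    intro n
    obtain ⟨Y, t, hnY, ht1, htd, hD⟩ := hω n
    refine ⟨t, ht1, fun a ha1 han q hqQ hωq => ?_⟩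
    have hq := hQ q hqQ
    rcases le_or_gt q Y with hqY | hqY
    · exact val_add hq ha1 (by omega : a ≤ n + 1)
        ((pow_dvd_pow_of_dvd (hq.dvd_factorial.2 hqY) (n + 1 + 1)).trans htd)
    · rw [padicValNat.eq_zero_of_not_dvd, padicValNat.eq_zero_of_not_dvd]
      · intro h
        have := Nat.le_of_dvd ha1 h
        omega
      · intro h
        have h1 := hD q hq hqY ⟨a, ha1, by omega, h⟩
        rw [hE'1 q hqQ] at h1
        exact hωq h1
  have hdet : ∀ A : Set ℕ, DeterminedBy {q ∈ Q | ω ∉ E q} A → TranslationProperty A := by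
    intro A hA n hn
    obtain ⟨t, ht1, ht⟩ := hval n
    refine ⟨t, ht1, fun a ha1 han => hA a (a + t) ha1 (by omega) (fun q hq => ?_)⟩
    exact (ht a ha1 han q hq.1 hq.2).symm
  refine ⟨hval, hdet, fun h4 F _ hF => hdet (Free F) (fun m m' hm hm' h => ?_)⟩
  rw [mem_Free_iff (by omega : m ≠ 0), mem_Free_iff (by omega : m' ≠ 0)]
  have key : ∀ q : ℕ, q.Prime → q % 4 = 3 → q ∉ F → padicValNat q m = padicValNat q m' := by
    intro q hq hq4 hqF
    exact h q ⟨h4 q hq hq4, fun hωq => hqF (hF ⟨h4 q hq hq4, hωq⟩)⟩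
  constructor
  · intro h1 q hq hq4 hqF
    rw [← key q hq hq4 hqF]
    exact h1 q hq hq4 hqF
  · intro h1 q hq hq4 hqF
    rw [key q hq hq4 hqF]
    exact h1 q hq hq4 hqF

end Pool.Agent.Results.MP_5d5287_nt.RandomPerturbation
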