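import Pool.Agent.helper59.TP.SelStep

/-!
# The translation property after freeing an arbitrarily sparse set of primes

`S` is the set of sums of two squares.  For a set `E` of primes, `Free E` is the set of the
numbers `d * s` where `s` is a sum of two squares and all prime factors of `d ≥ 1` are in `E`.
For `m ≥ 1` this means that each prime `q ≡ 3 mod 4` outside `E` divides `m` to an even power
(`mem_Free_iff`); in particular `Free ∅ = S` (`Free_empty`).

Theorem (`result`): for each `g : ℕ → ℕ` which tends to infinity, however slowly, and each `Y0`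
there is a set `D` of primes `≡ 3 mod 4` above `Y0`, with at most `g x` elements up to `x` for
every `x`, such that for every `n` there is a translation by some `t ≥ 1` which keeps, for all
`1 ≤ a ≤ n`, the exact power of every prime `q ≡ 3 mod 4` outside `D`; and `Free E` has the
translation property for every set `E` of primes which contains `D`.

The proof uses Selberg's weights (in `Pool.Agent.helper59.TP`): for each `n` they give a
translation `t = (Y!) ^ (n + 1) * s` for which the product of the `a + t` has only boundedly many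
prime factors above a power of `s` and very few prime factors between `Y` and that power.
-/

set_option autoImplicit false

namespace Pool.Agent.Results.MP_5d5287_nt.ThinExtension

/-- The set of sums of two squares of natural numbers. -/
def S : Set ℕ := {m | ∃ x y : ℕ, m = x ^ 2 + y ^ 2}

/-- The translation property: for each `n ≥ 1` the pattern of `A` on `[1, n]` reappears on
`[1 + t, n + t]` for some `t ≥ 1`. -/
def TranslationProperty (A : Set ℕ) : Prop :=
  ∀ n : ℕ, 1 ≤ n → ∃ t : ℕ, 1 ≤ t ∧ ∀ a : ℕ, 1 ≤ a → a ≤ n → (a ∈ A ↔ a + t ∈ A)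

/-- The numbers `d * s` with `s` a sum of two squares and `d ≥ 1` a product of primes of `E`. -/
def Free (E : Set ℕ) : Set ℕ :=
  {m | ∃ d s : ℕ, 1 ≤ d ∧ (∀ p : ℕ, p.Prime → p ∣ d → p ∈ E) ∧ s ∈ S ∧ m = d * s}

theorem mem_S_iff {m : ℕ} :
    m ∈ S ↔ ∀ q ∈ m.primeFactors, q % 4 = 3 → Even (padicValNat q m) :=
  Nat.eq_sq_add_sq_iff

theorem even_of_mem_S {m q : ℕ} (hm : m ≠ 0) (h : m ∈ S) (hq : q.Prime) (h4 : q % 4 = 3) :
    Even (padicValNat q m) := by
  by_cases hqm : q ∣ m
  · exact mem_S_iff.1 h q (Nat.mem_primeFactors.2 ⟨hq, hqm, hm⟩) h4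
  · rw [padicValNat.eq_zero_of_not_dvd hqm]
    exact ⟨0, rfl⟩

theorem mem_Free_of_even (E : Set ℕ) (m : ℕ) : m ≠ 0 →
    (∀ q : ℕ, q.Prime → q % 4 = 3 → q ∉ E → Even (padicValNat q m)) → m ∈ Free E := by
  induction m using Nat.strong_induction_on with
  | _ m ih =>
    intro hm h
    by_cases hex : ∃ p : ℕ, p.Prime ∧ p ∣ m ∧ p ∈ E
    · obtain ⟨p, hp, ⟨r, rfl⟩, hpE⟩ := hex
      have hr : r ≠ 0 := fun h0 => hm (by rw [h0, mul_zero])
      have hlt : r < p * r := by
        have := hp.two_le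
        nlinarith [Nat.pos_of_ne_zero hr]
      obtain ⟨d, s, hd, hdE, hs, hds⟩ := ih r hlt hr (fun q hq h4 hqE => by
        have : Fact q.Prime := ⟨hq⟩
        have h1 := h q hq h4 hqE
        rw [padicValNat.mul hp.ne_zero hr] at h1
        have h2 : ¬ q ∣ p := by
          intro hqp
          exact hqE (((Nat.prime_dvd_prime_iff_eq hq hp).1 hqp) ▸ hpE)
        rwa [padicValNat.eq_zero_of_not_dvd h2, zero_add] at h1)
      refine ⟨p * d, s, Nat.mul_pos hp.pos hd, fun q hq hqd => ?_, hs, by rw [hds, mul_assoc]⟩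
      rcases (Nat.Prime.dvd_mul hq).1 hqd with h1 | h1
      · exact ((Nat.prime_dvd_prime_iff_eq hq hp).1 h1) ▸ hpE
      · exact hdE q hq h1
    · refine ⟨1, m, le_rfl, fun p hp hp1 => absurd (Nat.dvd_one.1 hp1) hp.ne_one, ?_,
        (one_mul m).symm⟩
      rw [mem_S_iff]
      intro q hq h4
      obtain ⟨hqp, hqm, -⟩ := Nat.mem_primeFactors.1 hq
      exact h q hqp h4 (fun hqE => hex ⟨q, hqp, hqm, hqE⟩)

/-- `m ≥ 1` is in `Free E` iff each prime `q ≡ 3 mod 4` outside `E` divides `m` to an even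
power. -/
theorem mem_Free_iff {E : Set ℕ} {m : ℕ} (hm : m ≠ 0) :
    m ∈ Free E ↔ ∀ q : ℕ, q.Prime → q % 4 = 3 → q ∉ E → Even (padicValNat q m) := by
  constructor
  · rintro ⟨d, s, hd, hdE, hs, rfl⟩ q hq h4 hqE
    have : Fact q.Prime := ⟨hq⟩
    have hs0 : s ≠ 0 := fun h0 => hm (by rw [h0, mul_zero])
    rw [padicValNat.mul (by omega) hs0,
      padicValNat.eq_zero_of_not_dvd (fun h => hqE (hdE q hq h)), zero_add]
    exact even_of_mem_S hs0 hs hq h4
  · exact mem_Free_of_even E m hm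

theorem Free_empty : Free ∅ = S := by
  ext m
  constructor
  · rintro ⟨d, s, hd, hdE, hs, rfl⟩
    rcases eq_or_ne d 1 with rfl | h
    · rwa [one_mul]
    · obtain ⟨p, hp, hpd⟩ := Nat.exists_prime_and_dvd h
      exact absurd (hdE p hp hpd) (Set.notMem_empty p)
  · intro h
    exact ⟨1, m, le_rfl, fun p hp hp1 => absurd (Nat.dvd_one.1 hp1) hp.ne_one, h,
      (one_mul m).symm⟩

/-- a high power in `t` keeps the valuation of `a` -/
theorem val_add {q a t n : ℕ} (hq : q.Prime) (ha : 1 ≤ a) (han : a ≤ n)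
    (ht : q ^ (n + 1) ∣ t) : padicValNat q (a + t) = padicValNat q a := by
  have : Fact q.Prime := ⟨hq⟩
  have ha0 : a ≠ 0 := by omega
  have hv : padicValNat q a ≤ n := by
    have h1 : q ^ padicValNat q a ≤ a := Nat.le_of_dvd ha pow_padicValNat_dvd
    have h2 : padicValNat q a < q ^ padicValNat q a := Nat.lt_pow_self hq.one_lt
    omega
  have hat : a + t ≠ 0 := by omega
  apply le_antisymm
  · by_contra hcon
    push Not at hcon
    have h1 : q ^ (padicValNat q a + 1) ∣ a + t :=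
      (pow_dvd_pow q hcon).trans pow_padicValNat_dvd
    have h2 : q ^ (padicValNat q a + 1) ∣ t := (pow_dvd_pow q (by omega)).trans ht
    have h3 : q ^ (padicValNat q a + 1) ∣ a := (Nat.dvd_add_left h2).1 h1
    rw [padicValNat_dvd_iff_le ha0] at h3
    omega
  · rw [← padicValNat_dvd_iff_le hat]
    exact dvd_add pow_padicValNat_dvd ((pow_dvd_pow q (by omega)).trans ht)

/-- a function tending to infinity has a nondecreasing minorant tending to infinity -/
theorem exists_minorant (g : ℕ → ℕ) (hg : Filter.Tendsto g Filter.atTop Filter.atTop) :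
    ∃ h : ℕ → ℕ, Monotone h ∧ (∀ x, h x ≤ g x) ∧ ∀ c, ∃ X, ∀ x, X ≤ x → c ≤ h x := by
  refine ⟨fun x => sInf (g '' Set.Ici x), ?_, ?_, ?_⟩
  · intro a b hab
    apply Nat.sInf_mem (s := g '' Set.Ici b) ⟨g b, b, le_refl b, rfl⟩ |>.elim
    rintro y ⟨hy, hyb⟩
    change sInf (g '' Set.Ici a) ≤ sInf (g '' Set.Ici b)
    rw [← hyb]
    exact Nat.sInf_le ⟨y, le_trans hab hy, rfl⟩
  · intro x
    exact Nat.sInf_le ⟨x, le_refl x, rfl⟩
  · intro c
    obtain ⟨X, hX⟩ := Filter.eventually_atTop.1 (hg.eventually_ge_atTop c)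
    refine ⟨X, fun x hx => ?_⟩
    obtain ⟨y, hy, hyb⟩ := Nat.sInf_mem (s := g '' Set.Ici x) ⟨g x, x, le_refl x, rfl⟩
    change c ≤ sInf (g '' Set.Ici x)
    rw [← hyb]
    exact hX y (le_trans hx hy)

/-- For each `g : ℕ → ℕ` tending to infinity and each `Y0` there is a set `D` of primes
`≡ 3 mod 4` above `Y0`, with at most `g x` elements up to `x` for all `x`, such that for each `n`
some translation by `t ≥ 1` keeps the exact power of each prime `q ≡ 3 mod 4` outside `D` in each
of the numbers `1, ..., n`; and `Free E` has the translation property for every set `E` of primes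
containing `D`. -/
theorem result (g : ℕ → ℕ) (hg : Filter.Tendsto g Filter.atTop Filter.atTop) (Y0 : ℕ) :
    ∃ D : Set ℕ, (∀ q ∈ D, q.Prime ∧ q % 4 = 3 ∧ Y0 < q) ∧
      (∀ x : ℕ, (D ∩ Set.Iic x).ncard ≤ g x) ∧
      (∀ n : ℕ, ∃ t : ℕ, 1 ≤ t ∧ ∀ a : ℕ, 1 ≤ a → a ≤ n → ∀ q : ℕ, q.Prime → q % 4 = 3 →
        q ∉ D → padicValNat q (a + t) = padicValNat q a) ∧
      ∀ E : Set ℕ, (∀ q ∈ E, q.Prime) → D ⊆ E → TranslationProperty (Free E) := by
  obtain ⟨h, hmono, hle, hlim⟩ := exists_minorant g hg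
  obtain ⟨D, hD1, hD2, hD3⟩ := Pool.Agent.helper59.Sel.exists_thin2
    (fun x => (h x : ℝ) + 1 / 2) (fun x => by positivity)
    (fun a b hab => by
      have : ((h a : ℕ) : ℝ) ≤ h b := by exact_mod_cast hmono hab
      change (h a : ℝ) + 1 / 2 ≤ (h b : ℝ) + 1 / 2
      linarith)
    (fun c => by
      obtain ⟨X, hX⟩ := hlim ⌈c⌉₊
      refine ⟨X, fun x hx => ?_⟩
      have h1 : ((⌈c⌉₊ : ℕ) : ℝ) ≤ h x := by exact_mod_cast hX x hx
      have h2 := Nat.le_ceil c
      linarith) Y0
  have hval : ∀ n : ℕ, ∃ t : ℕ, 1 ≤ t ∧ ∀ a : ℕ, 1 ≤ a → a ≤ n → ∀ q : ℕ, q.Prime →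
      q % 4 = 3 → q ∉ D ∩ {q | q % 4 = 3} → padicValNat q (a + t) = padicValNat q a := by
    intro n
    obtain ⟨Y, t, hnY, ht1, htd, hD⟩ := hD3 n
    refine ⟨t, ht1, fun a ha1 han q hq h4 hqD => ?_⟩
    rcases le_or_gt q Y with hqY | hqY
    · exact val_add hq ha1 han ((pow_dvd_pow_of_dvd (hq.dvd_factorial.2 hqY) (n + 1)).trans htd)
    · rw [padicValNat.eq_zero_of_not_dvd, padicValNat.eq_zero_of_not_dvd]
      · intro h
        have := Nat.le_of_dvd ha1 h
        omega
      · intro h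
        exact hqD ⟨hD q hq hqY ⟨a, ha1, han, h⟩, h4⟩
  refine ⟨D ∩ {q | q % 4 = 3}, fun q hq => ⟨(hD1 q hq.1).1, hq.2, (hD1 q hq.1).2⟩,
    fun x => ?_, hval, fun E hE hDE n hn => ?_⟩
  · have h1 : (D ∩ {q | q % 4 = 3}) ∩ Set.Iic x ⊆ D ∩ Set.Iic x :=
      Set.inter_subset_inter_left _ Set.inter_subset_left
    have h2 := Set.ncard_le_ncard h1 ((Set.finite_Iic x).subset Set.inter_subset_right)
    have h3 : ((D ∩ Set.Iic x).ncard : ℝ) < ((h x + 1 : ℕ) : ℝ) := by
      have h4 := hD2 x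
      push_cast
      linarith
    have h5 : (D ∩ Set.Iic x).ncard < h x + 1 := by exact_mod_cast h3
    have h6 := hle x
    omega
  · obtain ⟨t, ht1, ht⟩ := hval n
    refine ⟨t, ht1, fun a ha1 han => ?_⟩
    rw [mem_Free_iff (by omega : a ≠ 0), mem_Free_iff (by omega : a + t ≠ 0)]
    constructor
    · intro h q hq h4 hqE
      rw [ht a ha1 han q hq h4 (fun h' => hqE (hDE h'))]
      exact h q hq h4 hqE
    · intro h q hq h4 hqE
      rw [← ht a ha1 han q hq h4 (fun h' => hqE (hDE h'))]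
      exact h q hq h4 hqE

end Pool.Agent.Results.MP_5d5287_nt.ThinExtension
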