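import Mathlib

/-!
# Translations of the set of sums of two squares

`S` is the set of sums of two squares.

Theorem (`result`): for each `n` and each modulus `M` there is a translation by a multiple `t ≥ 1`
of `M` which preserves all nonmembers of `S` in `[1, n]`, all members `x ^ 2 + y ^ 2` with
`(x, y)` on a given line (infinitely many, if the line has integer points), and two further
members which are given.  In particular it can preserve any four members (`four`).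

We also show (`oneSided_iff`) that the translation property of `S` is equivalent to its one-sided
version: for each `n` some translation by `t ≥ 1` maps the members of `S` in `[1, n]` into `S`.
-/

namespace Pool.Agent.Results.MP_5d5287_nt.WeakTranslation

/-- The set of sums of two squares of natural numbers. -/
def S : Set ℕ := {m | ∃ x y : ℕ, m = x ^ 2 + y ^ 2}

/-- The translation property: for each `n ≥ 1` the pattern of `A` on `[1, n]` reappears on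
`[1 + t, n + t]` for some `t ≥ 1`. -/
def TranslationProperty (A : Set ℕ) : Prop :=
  ∀ n : ℕ, 1 ≤ n → ∃ t : ℕ, 1 ≤ t ∧ ∀ a : ℕ, 1 ≤ a → a ≤ n → (a ∈ A ↔ a + t ∈ A)

/-- The one-sided version: the members of `A` in `[1, n]` are mapped into `A` by the translation
by some `t ≥ 1`. -/
def OneSidedTranslation (A : Set ℕ) : Prop :=
  ∀ n : ℕ, 1 ≤ n → ∃ t : ℕ, 1 ≤ t ∧ ∀ a : ℕ, 1 ≤ a → a ≤ n → a ∈ A → a + t ∈ A

theorem mem_S_iff {m : ℕ} :
    m ∈ S ↔ ∀ q ∈ m.primeFactors, q % 4 = 3 → Even (padicValNat q m) :=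
  Nat.eq_sq_add_sq_iff

theorem mem_of_int {m : ℕ} {x y : ℤ} (h : (m : ℤ) = x ^ 2 + y ^ 2) : m ∈ S := by
  refine ⟨x.natAbs, y.natAbs, ?_⟩
  zify
  rw [sq_abs, sq_abs]
  exact h

theorem S_div {m n : ℕ} (hm0 : m ≠ 0) (hm : m ∈ S) (hmn : m * n ∈ S) : n ∈ S := by
  rcases Nat.eq_zero_or_pos n with rfl | hn
  · exact ⟨0, 0, rfl⟩
  rw [mem_S_iff] at hm hmn ⊢
  intro q hq h4
  have hqp := Nat.prime_of_mem_primeFactors hq
  have : Fact q.Prime := ⟨hqp⟩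
  have hqn : q ∣ n := Nat.dvd_of_mem_primeFactors hq
  have h1 := hmn q (Nat.mem_primeFactors.2 ⟨hqp, hqn.mul_left m, Nat.mul_ne_zero hm0 hn.ne'⟩) h4
  have h2 : Even (padicValNat q m) := by
    by_cases h : q ∣ m
    · exact hm q (Nat.mem_primeFactors.2 ⟨hqp, h, hm0⟩) h4
    · rw [padicValNat.eq_zero_of_not_dvd h]
      exact ⟨0, rfl⟩
  rw [padicValNat.mul hm0 hn.ne'] at h1
  exact (Nat.even_add.1 h1).1 h2

theorem not_mem_of_odd {m q : ℕ} (hm : m ≠ 0) (hq : q.Prime) (h4 : q % 4 = 3)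
    (ho : ¬ Even (padicValNat q m)) : m ∉ S := by
  have : Fact q.Prime := ⟨hq⟩
  intro h
  rw [mem_S_iff] at h
  refine ho (h q (Nat.mem_primeFactors.2 ⟨hq, ?_, hm⟩) h4)
  by_contra hd
  rw [padicValNat.eq_zero_of_not_dvd hd] at ho
  exact ho ⟨0, rfl⟩

theorem padic_add {q a t : ℕ} (hq : q.Prime) (ha : a ≠ 0)
    (ht : q ^ (padicValNat q a + 1) ∣ t) : padicValNat q (a + t) = padicValNat q a := by
  have : Fact q.Prime := ⟨hq⟩
  have hat : a + t ≠ 0 := by omega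
  apply le_antisymm
  · by_contra h
    push Not at h
    have h1 : q ^ (padicValNat q a + 1) ∣ a + t := (padicValNat_dvd_iff_le hat).2 h
    have h2 : q ^ (padicValNat q a + 1) ∣ a := (Nat.dvd_add_left ht).1 h1
    have h3 := (padicValNat_dvd_iff_le ha).1 h2
    omega
  · apply (padicValNat_dvd_iff_le hat).1
    exact Dvd.dvd.add pow_padicValNat_dvd ((pow_dvd_pow q (Nat.le_succ _)).trans ht)

theorem not_mem_add {a t : ℕ} (ha : a ≠ 0) (haS : a ∉ S)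
    (ht : ∀ q : ℕ, q.Prime → q % 4 = 3 → ¬ Even (padicValNat q a) →
      q ^ (padicValNat q a + 1) ∣ t) : a + t ∉ S := by
  rw [mem_S_iff] at haS
  push Not at haS
  obtain ⟨q, hq, h4, ho⟩ := haS
  have hqp := Nat.prime_of_mem_primeFactors hq
  refine not_mem_of_odd (by omega) hqp h4 ?_
  rw [padic_add hqp ha (ht q hqp h4 ho)]
  exact ho

/-- Multiples of `(n!)²` preserve the nonmembers in `[1, n]`. -/
theorem not_mem_add_factorial {n a t : ℕ} (ha1 : 1 ≤ a) (han : a ≤ n) (haS : a ∉ S)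
    (ht : n.factorial ^ 2 ∣ t) : a + t ∉ S := by
  refine not_mem_add (by omega) haS fun q hq _ ho => ?_
  have : Fact q.Prime := ⟨hq⟩
  have h1 : 1 ≤ padicValNat q a := by
    by_contra h
    have h0 : padicValNat q a = 0 := by omega
    rw [h0] at ho
    exact ho ⟨0, rfl⟩
  have h2 : q ^ padicValNat q a ∣ n.factorial :=
    pow_padicValNat_dvd.trans (Nat.dvd_factorial (by omega) han)
  have h3 : (q ^ padicValNat q a) ^ 2 ∣ n.factorial ^ 2 := pow_dvd_pow_of_dvd h2 2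
  rw [← pow_mul] at h3
  exact ((pow_dvd_pow q (by omega)).trans h3).trans ht

/-! ### The rotated representation -/

/-- a number `p` with `ℓ ∣ p² + 1` exactly once -/
theorem exists_exact (l : ℕ) (hl : l.Prime) (hl4 : l % 4 = 1) (N : ℕ) :
    ∃ p : ℤ, (N : ℤ) < p ∧ (l : ℤ) ∣ p ^ 2 + 1 ∧ ¬ (l : ℤ) ^ 2 ∣ p ^ 2 + 1 := by
  have : Fact l.Prime := ⟨hl⟩
  have hlp : (0 : ℤ) < l := by exact_mod_cast hl.pos
  obtain ⟨r, hr⟩ := ZMod.exists_sq_eq_neg_one_iff.2 (show l % 4 ≠ 3 by omega)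
  obtain ⟨p0, rfl⟩ := ZMod.natCast_zmod_surjective r
  have h0 : (l : ℤ) ∣ (p0 : ℤ) ^ 2 + 1 := by
    rw [← ZMod.intCast_zmod_eq_zero_iff_dvd ((p0 : ℤ) ^ 2 + 1) l]
    push_cast
    rw [sq, ← hr]
    ring
  set p1 : ℤ := p0 + l * (N + 1) with hp1
  have hN : (N : ℤ) < p1 := by
    have h1 : (1 : ℤ) ≤ l := hlp
    have h2 : (0 : ℤ) ≤ p0 := Int.natCast_nonneg _
    have h3 : (0 : ℤ) ≤ N := Int.natCast_nonneg _
    nlinarith
  have h1 : (l : ℤ) ∣ p1 ^ 2 + 1 := by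
    have : p1 ^ 2 + 1 = ((p0 : ℤ) ^ 2 + 1) + l * ((N + 1) * (2 * p0 + l * (N + 1))) := by
      rw [hp1]; ring
    rw [this]
    exact dvd_add h0 (dvd_mul_right _ _)
  by_cases h2 : (l : ℤ) ^ 2 ∣ p1 ^ 2 + 1
  · refine ⟨p1 + l, by linarith, ?_, fun h3 => ?_⟩
    · have : (p1 + l) ^ 2 + 1 = (p1 ^ 2 + 1) + l * (2 * p1 + l) := by ring
      rw [this]
      exact dvd_add h1 (dvd_mul_right _ _)
    · have h4 : (l : ℤ) ^ 2 ∣ l * (2 * p1) := by
        have e : (l : ℤ) * (2 * p1) = ((p1 + l) ^ 2 + 1) - (p1 ^ 2 + 1) - l ^ 2 := by ring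
        rw [e]
        exact dvd_sub (dvd_sub h3 h2) dvd_rfl
      rw [sq] at h4
      have h5 : (l : ℤ) ∣ 2 * p1 := (mul_dvd_mul_iff_left hlp.ne').1 h4
      have hlZ : Prime (l : ℤ) := Nat.prime_iff_prime_int.1 hl
      rcases hlZ.dvd_or_dvd h5 with h6 | h6
      · have h7 : l ∣ 2 := by exact_mod_cast h6
        have h8 := (Nat.prime_dvd_prime_iff_eq hl Nat.prime_two).1 h7
        omega
      · have h7 : (l : ℤ) ∣ 1 := by
          have e : (1 : ℤ) = (p1 ^ 2 + 1) - p1 * p1 := by ring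
          rw [e]
          exact dvd_sub h1 (h6.mul_left _)
        exact hlZ.not_isUnit (isUnit_of_dvd_one h7)
  · exact ⟨p1, hN, h1, h2⟩

theorem exists_rot (c g x y : ℤ) (hc : 0 ≤ c) (hg : 0 < g) (hx : 1 ≤ x) (hy : 0 ≤ y) :
    ∃ Q X Y : ℤ, 0 < Q ∧ 0 < Y ∧ 0 < c * Q + X ∧ X ^ 2 + Y ^ 2 = Q ^ 2 * (x ^ 2 + y ^ 2) ∧
      ¬ IsSquare (Q * (c * Q + X) * g) := by
  obtain ⟨l, hl, hlb, hl1⟩ := Nat.exists_prime_gt_modEq_one (k := 4)
    (2 * (x ^ 2 + y ^ 2) * g).natAbs (by norm_num)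
  have hl4 : l % 4 = 1 := hl1
  have hb : 2 * (x ^ 2 + y ^ 2) * g < l := by
    have h1 : (2 * (x ^ 2 + y ^ 2) * g) ≤ ((2 * (x ^ 2 + y ^ 2) * g).natAbs : ℤ) := Int.le_natAbs
    have h2 : ((2 * (x ^ 2 + y ^ 2) * g).natAbs : ℤ) < l := by exact_mod_cast hlb
    linarith
  have hn : 1 ≤ x ^ 2 + y ^ 2 := by nlinarith [sq_nonneg y]
  have hg1 : 1 ≤ g := hg
  have hlZ : Prime (l : ℤ) := Nat.prime_iff_prime_int.1 hl
  have hsmall : ∀ m : ℤ, 0 < m → m < l → ¬ (l : ℤ) ∣ m := fun m h0 h1 h2 =>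
    absurd (Int.le_of_dvd h0 h2) (not_le.2 h1)
  have hn1 : 2 * (x ^ 2 + y ^ 2) < l := by nlinarith
  have hg2 : g < l := by nlinarith
  have hlg : ¬ (l : ℤ) ∣ g := hsmall g hg hg2
  have hln : ¬ (l : ℤ) ∣ x ^ 2 + y ^ 2 := hsmall _ (by linarith) (by linarith)
  have hl2 : ¬ (l : ℤ) ∣ 2 := hsmall 2 (by norm_num) (by nlinarith)
  obtain ⟨p, hp, hd1, hd2⟩ := exists_exact l hl hl4 (2 * y + 2).natAbs
  have hp1 : 2 * y + 2 < p := lt_of_le_of_lt Int.le_natAbs hp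
  have hXpos : 0 < (p ^ 2 - 1) * x - 2 * p * y := by
    have h1 : 2 * p * y ≤ 2 * p * y * x := by
      have : 0 ≤ 2 * p * y := by nlinarith
      nlinarith
    have h2 : 0 < (p ^ 2 - 1) - 2 * p * y := by nlinarith
    nlinarith
  refine ⟨p ^ 2 + 1, (p ^ 2 - 1) * x - 2 * p * y, 2 * p * x + (p ^ 2 - 1) * y, by positivity,
    ?_, ?_, by ring, ?_⟩
  · have h1 : 0 ≤ (p ^ 2 - 1) * y := mul_nonneg (by nlinarith) hy
    have h2 : 0 < 2 * p * x := by nlinarith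
    linarith
  · have h1 : 0 ≤ c * (p ^ 2 + 1) := mul_nonneg hc (by positivity)
    linarith
  · rintro ⟨s, hs⟩
    have hPi : ¬ (l : ℤ) ∣ c * (p ^ 2 + 1) + ((p ^ 2 - 1) * x - 2 * p * y) := by
      intro h
      have e1 : c * (p ^ 2 + 1) + ((p ^ 2 - 1) * x - 2 * p * y) =
          (p ^ 2 + 1) * (c + x) - 2 * (x + p * y) := by ring
      rw [e1] at h
      have h1 : (l : ℤ) ∣ 2 * (x + p * y) := by
        have := dvd_sub (hd1.mul_right (c + x)) h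
        simpa using this
      have h2 : (l : ℤ) ∣ x + p * y := (hlZ.dvd_or_dvd h1).resolve_left hl2
      apply hln
      have e2 : x ^ 2 + y ^ 2 = (x + p * y) * (x - p * y) + (p ^ 2 + 1) * y ^ 2 := by ring
      rw [e2]
      exact dvd_add (h2.mul_right _) (hd1.mul_right _)
    have h1 : (l : ℤ) ∣ s * s := by
      rw [← hs]
      exact (hd1.mul_right _).mul_right _
    have h2 : (l : ℤ) ∣ s := (hlZ.dvd_or_dvd h1).elim id id
    have h3 : (l : ℤ) ^ 2 ∣ (p ^ 2 + 1) *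
        ((c * (p ^ 2 + 1) + ((p ^ 2 - 1) * x - 2 * p * y)) * g) := by
      rw [← mul_assoc, hs, sq]
      exact mul_dvd_mul h2 h2
    apply hd2
    have hcop : IsCoprime ((l : ℤ) ^ 2)
        ((c * (p ^ 2 + 1) + ((p ^ 2 - 1) * x - 2 * p * y)) * g) := by
      apply IsCoprime.pow_left
      apply IsCoprime.mul_right
      · exact (hlZ.coprime_iff_not_dvd).2 hPi
      · exact (hlZ.coprime_iff_not_dvd).2 hlg
    exact hcop.dvd_of_dvd_mul_right h3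

/-! ### Pell equations -/

theorem pell {D m : ℤ} (hD : 0 < D) (hsq : ¬ IsSquare D) (hm : 0 < m) :
    ∃ u v : ℤ, u ^ 2 - D * v ^ 2 = 1 ∧ 0 < u ∧ 0 < v ∧ m ∣ v := by
  have h1 : ¬ IsSquare (D * m ^ 2) := by
    rintro ⟨s, hs⟩
    have h2 : m ^ 2 ∣ s ^ 2 := ⟨D, by rw [sq s, ← hs]; ring⟩
    have h3 : m ∣ s := (Int.pow_dvd_pow_iff two_ne_zero).1 h2
    obtain ⟨r, rfl⟩ := h3
    apply hsq
    refine ⟨r, ?_⟩
    have : m ^ 2 ≠ 0 := by positivity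
    apply mul_right_cancel₀ this
    rw [hs]; ring
  obtain ⟨x, y, hxy, hy⟩ := Pell.exists_of_not_isSquare (by positivity) h1
  have hx : x ≠ 0 := by
    rintro rfl
    have : 0 < D * m ^ 2 * y ^ 2 := by positivity
    nlinarith
  refine ⟨|x|, m * |y|, ?_, abs_pos.2 hx, mul_pos hm (abs_pos.2 hy), dvd_mul_right _ _⟩
  rw [mul_pow, sq_abs, sq_abs, ← hxy]
  ring

/-- The two square conditions. -/
theorem two_squares (A B Y y m : ℤ) (hA : 0 < A) (hB : 0 < B) (hY : 0 < Y) (hy : 0 ≤ y)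
    (hsq : ¬ IsSquare (A * B)) (hm : 0 < m) :
    ∃ τ r s : ℤ, 0 < τ ∧ m ∣ τ ∧ r ^ 2 = A * τ + Y ^ 2 ∧ s ^ 2 = B * τ + y ^ 2 := by
  obtain ⟨u, v, huv, hu, hv, hmv⟩ := pell (mul_pos hA hB) hsq hm
  refine ⟨v * (B * Y ^ 2 * v + 2 * Y * y * u + A * y ^ 2 * v), Y * u + A * y * v,
    y * u + B * Y * v, ?_, hmv.mul_right _, ?_, ?_⟩
  · apply mul_pos hv
    have h1 : 0 < B * Y ^ 2 * v := by positivity
    have h2 : 0 ≤ 2 * Y * y * u := by positivity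
    have h3 : 0 ≤ A * y ^ 2 * v := by positivity
    linarith
  · linear_combination Y ^ 2 * huv
  · linear_combination y ^ 2 * huv

theorem normalize {m x y : ℤ} (hm : 0 < m) (h : m = x ^ 2 + y ^ 2) :
    ∃ x' y' : ℤ, 1 ≤ x' ∧ 0 ≤ y' ∧ m = x' ^ 2 + y' ^ 2 := by
  by_cases hx : x = 0
  · refine ⟨|y|, 0, ?_, le_rfl, ?_⟩
    · have hy : y ≠ 0 := by
        rintro rfl
        rw [hx] at h
        simp at h
        omega
      exact Int.one_le_abs hy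
    · rw [sq_abs, h, hx]; ring
  · exact ⟨|x|, |y|, Int.one_le_abs hx, abs_nonneg y, by rw [sq_abs, sq_abs, h]⟩

/-- The second result, for a line `α x + β y = c` with `c ≥ 0`. -/
theorem line_aux (n M : ℕ) (hM : 1 ≤ M) (α β c : ℤ) (hk : 0 < α ^ 2 + β ^ 2) (hc : 0 ≤ c)
    (b b' : ℕ) (hb1 : 1 ≤ b) (hb : b ∈ S) (hb1' : 1 ≤ b') (hb' : b' ∈ S) :
    ∃ t : ℕ, 1 ≤ t ∧ M ∣ t ∧ (∀ a : ℕ, 1 ≤ a → a ≤ n → a ∉ S → a + t ∉ S) ∧
      (∀ (a : ℕ) (x y : ℤ), (a : ℤ) = x ^ 2 + y ^ 2 → α * x + β * y = c → a + t ∈ S) ∧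
      b + t ∈ S ∧ b' + t ∈ S := by
  obtain ⟨x0, y0, h0⟩ := hb
  obtain ⟨x1, y1, h1⟩ := hb'
  have hbZ : (b : ℤ) = (x0 : ℤ) ^ 2 + (y0 : ℤ) ^ 2 := by exact_mod_cast h0
  have hbZ' : (b' : ℤ) = (x1 : ℤ) ^ 2 + (y1 : ℤ) ^ 2 := by exact_mod_cast h1
  have hbp : (0 : ℤ) < b := by exact_mod_cast hb1
  have hbp' : (0 : ℤ) < b' := by exact_mod_cast hb1'
  obtain ⟨x, y, hx, hy, hxy⟩ := normalize (m := (α ^ 2 + β ^ 2) * b) (mul_pos hk hbp)
    (x := α * x0 - β * y0) (y := α * y0 + β * x0) (by rw [hbZ]; ring)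
  obtain ⟨x', y', hx', hy', hxy'⟩ := normalize (m := (α ^ 2 + β ^ 2) * b') (mul_pos hk hbp')
    (x := α * x1 - β * y1) (y := α * y1 + β * x1) (by rw [hbZ']; ring)
  have hg : 0 < c + x := by linarith
  obtain ⟨Q, X, Y, hQ, hY, hP, hXY, hsq⟩ := exists_rot c (c + x) x' y' hc hg hx' hy'
  have hsq' : ¬ IsSquare ((2 * Q * (c * Q + X)) * (2 * (c + x))) := by
    rintro ⟨s, hs⟩
    have h2 : (2 : ℤ) ^ 2 ∣ s ^ 2 := ⟨Q * (c * Q + X) * (c + x), by rw [sq s, ← hs]; ring⟩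
    obtain ⟨r, rfl⟩ := (Int.pow_dvd_pow_iff two_ne_zero).1 h2
    apply hsq
    refine ⟨r, ?_⟩
    have e : (4 : ℤ) * (Q * (c * Q + X) * (c + x)) = 4 * (r * r) := by
      linear_combination hs
    linarith
  have hMZ : (0 : ℤ) < M := by exact_mod_cast hM
  have hFZ : (0 : ℤ) < (n.factorial : ℤ) ^ 2 := by
    have := n.factorial_pos
    positivity
  obtain ⟨τ, r, s, hτ, hmτ, hr, hs⟩ := two_squares (2 * Q * (c * Q + X)) (2 * (c + x)) Y y
    ((α ^ 2 + β ^ 2) * (M * (n.factorial : ℤ) ^ 2)) (by positivity) (by positivity) hY hy hsq'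
    (by positivity)
  obtain ⟨τ', rfl⟩ := hmτ
  set k : ℤ := α ^ 2 + β ^ 2 with hkdef
  set F : ℤ := (n.factorial : ℤ) ^ 2 with hF
  set τ : ℤ := k * (M * F) * τ' with hτdef
  have hMF : 0 < k * (M * F) := by positivity
  have hτ' : 0 < τ' := (mul_pos_iff_of_pos_left hMF).1 hτ
  have hTpos : 0 < M * F * τ' * (τ + 2 * c) := by
    have : 0 < τ + 2 * c := by linarith
    positivity
  obtain ⟨t, ht⟩ := Int.eq_ofNat_of_zero_le hTpos.le
  have ht1 : 1 ≤ t := by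
    rw [ht] at hTpos
    exact_mod_cast hTpos
  have hkt : k * (t : ℤ) = τ * (τ + 2 * c) := by
    rw [← ht, hτdef]; ring
  obtain ⟨kN, hkN⟩ := Int.eq_ofNat_of_zero_le hk.le
  have hkN0 : kN ≠ 0 := by
    rintro rfl
    rw [hkN] at hk
    simp at hk
  have hkS : kN ∈ S := mem_of_int (x := α) (y := β) (by rw [← hkN])
  obtain ⟨QN, hQN⟩ := Int.eq_ofNat_of_zero_le hQ.le
  have hQN0 : QN ≠ 0 := by
    rintro rfl
    rw [hQN] at hQ
    simp at hQ
  have hQS : QN ^ 2 * kN ∈ S := mem_of_int (x := Q * α) (y := Q * β) (by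
    push_cast
    have e1 : (QN : ℤ) = Q := hQN.symm
    have e2 : (kN : ℤ) = k := hkN.symm
    rw [e1, e2, hkdef]
    ring)
  have e1 : (QN : ℤ) = Q := hQN.symm
  have e2 : (kN : ℤ) = k := hkN.symm
  refine ⟨t, ht1, ?_, ?_, ?_, ?_, ?_⟩
  · have : (M : ℤ) ∣ (t : ℤ) := ⟨F * τ' * (τ + 2 * c), by rw [← ht]; ring⟩
    exact_mod_cast this
  · intro a ha1 han haS
    refine not_mem_add_factorial ha1 han haS ?_
    have : (((n.factorial ^ 2 : ℕ)) : ℤ) ∣ (t : ℤ) :=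
      ⟨M * τ' * (τ + 2 * c), by
        rw [← ht]; push_cast; rw [← hF]; ring⟩
    exact_mod_cast this
  · intro a z w ha hl
    refine S_div hkN0 hkS (mem_of_int (x := τ + c) (y := α * w - β * z) ?_)
    push_cast
    rw [e2, mul_add, hkt, ha, ← hl, hkdef]
    ring
  · refine S_div hkN0 hkS (mem_of_int (x := τ - x) (y := s) ?_)
    push_cast
    rw [e2, mul_add, hkt, hxy, hs]
    ring
  · refine S_div (mul_ne_zero (pow_ne_zero 2 hQN0) hkN0) hQS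
      (mem_of_int (x := Q * (τ + c) - (c * Q + X)) (y := r) ?_)
    push_cast
    rw [e1, e2, hr]
    linear_combination Q ^ 2 * hkt + Q ^ 2 * hxy' - hXY

/-- Members on a line and two further members. -/
theorem line (n M : ℕ) (hM : 1 ≤ M) (α β γ : ℤ) (hk : α ≠ 0 ∨ β ≠ 0)
    (b b' : ℕ) (hb1 : 1 ≤ b) (hb : b ∈ S) (hb1' : 1 ≤ b') (hb' : b' ∈ S) :
    ∃ t : ℕ, 1 ≤ t ∧ M ∣ t ∧ (∀ a : ℕ, 1 ≤ a → a ≤ n → a ∉ S → a + t ∉ S) ∧
      (∀ (a : ℕ) (x y : ℤ), (a : ℤ) = x ^ 2 + y ^ 2 → α * x + β * y = γ → a + t ∈ S) ∧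
      b + t ∈ S ∧ b' + t ∈ S := by
  have hk' : 0 < α ^ 2 + β ^ 2 := by
    rcases hk with h | h
    · have := sq_nonneg β
      have : 0 < α ^ 2 := by positivity
      linarith
    · have := sq_nonneg α
      have : 0 < β ^ 2 := by positivity
      linarith
  rcases le_total 0 γ with hγ | hγ
  · exact line_aux n M hM α β γ hk' hγ b b' hb1 hb hb1' hb'
  · obtain ⟨t, h1, h2, h3, h4, h5⟩ := line_aux n M hM (-α) (-β) (-γ) (by rw [neg_sq, neg_sq]; exact hk')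
      (by linarith) b b' hb1 hb hb1' hb'
    exact ⟨t, h1, h2, h3, fun a x y ha hl => h4 a x y ha (by rw [← hl]; ring), h5⟩

/-- For a prime `q` and `t` prime to `q`, some sum `s` of two squares satisfies
`s + t ≡ 0` modulo `q` but not modulo `q ^ 2`. -/
theorem exists_exact_one {q : ℕ} (hq : q.Prime) (h4 : q % 4 = 3) {t : ℕ} (ht : ¬ q ∣ t) :
    ∃ x y : ℕ, 1 ≤ x ^ 2 + y ^ 2 ∧ x ^ 2 + y ^ 2 ≤ 5 * q ^ 2 ∧ q ∣ x ^ 2 + y ^ 2 + t ∧
      ¬ q ^ 2 ∣ x ^ 2 + y ^ 2 + t := by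
  have : Fact q.Prime := ⟨hq⟩
  obtain ⟨a, b, hab⟩ := ZMod.sq_add_sq q (-(t : ZMod q))
  -- representatives, the first one nonzero
  have hex : ∃ x y : ℕ, x < q ∧ y < q ∧ x ≠ 0 ∧ q ∣ x ^ 2 + y ^ 2 + t := by
    have hdvd : q ∣ a.val ^ 2 + b.val ^ 2 + t := by
      rw [← ZMod.natCast_eq_zero_iff]
      push_cast
      rw [ZMod.natCast_zmod_val, ZMod.natCast_zmod_val, hab]
      ring
    by_cases ha : a.val = 0
    · refine ⟨b.val, a.val, ZMod.val_lt b, ZMod.val_lt a, ?_, ?_⟩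
      · intro hb
        rw [ha, hb] at hdvd
        apply ht
        simpa using hdvd
      · rwa [add_comm (b.val ^ 2)]
    · exact ⟨a.val, b.val, ZMod.val_lt a, ZMod.val_lt b, ha, hdvd⟩
  obtain ⟨x, y, hx, hy, hx0, hd⟩ := hex
  have hxq : x ^ 2 ≤ q ^ 2 := Nat.pow_le_pow_left hx.le 2
  have hyq : y ^ 2 ≤ q ^ 2 := Nat.pow_le_pow_left hy.le 2
  have hx1 : 1 ≤ x ^ 2 := Nat.one_le_pow _ _ (Nat.pos_of_ne_zero hx0)
  by_cases h2 : q ^ 2 ∣ x ^ 2 + y ^ 2 + t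
  · refine ⟨x + q, y, ?_, ?_, ?_, ?_⟩
    · have : 1 ≤ (x + q) ^ 2 := Nat.one_le_pow _ _ (by omega)
      omega
    · have : (x + q) ^ 2 ≤ (2 * q) ^ 2 := Nat.pow_le_pow_left (by omega) 2
      have h5 : (2 * q) ^ 2 = 4 * q ^ 2 := by ring
      omega
    · have h3 : (x + q) ^ 2 + y ^ 2 + t = (x ^ 2 + y ^ 2 + t) + q * (2 * x + q) := by ring
      rw [h3]
      exact Dvd.dvd.add hd (Dvd.intro _ rfl)
    · intro h
      have h3 : (x + q) ^ 2 + y ^ 2 + t = (x ^ 2 + y ^ 2 + t) + (q ^ 2 + 2 * q * x) := by ring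
      rw [h3] at h
      have h5 : q ^ 2 ∣ q ^ 2 + 2 * q * x := (Nat.dvd_add_right h2).1 h
      have h6 : q ^ 2 ∣ 2 * q * x := (Nat.dvd_add_right (dvd_refl _)).1 h5
      have h7 : q * q ∣ q * (2 * x) := by
        rw [show q * q = q ^ 2 by ring, show q * (2 * x) = 2 * q * x by ring]
        exact h6
      have h8 : q ∣ 2 * x := Nat.dvd_of_mul_dvd_mul_left hq.pos h7
      rcases (Nat.Prime.dvd_mul hq).1 h8 with h9 | h9
      · have := Nat.le_of_dvd (by norm_num) h9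
        omega
      · have := Nat.le_of_dvd (by omega) h9
        omega
  · refine ⟨x, y, by omega, by omega, hd, h2⟩

/-- The one-sided version implies the translation property. -/
theorem of_oneSided (h : OneSidedTranslation S) : TranslationProperty S := by
  intro n hn
  obtain ⟨t, ht, hS⟩ := h (5 * n ^ 3) (by
    have : 1 ≤ n ^ 3 := Nat.one_le_pow _ _ hn
    omega)
  refine ⟨t, ht, fun a ha1 han => ⟨fun haS => hS a ha1 ?_ haS, fun h2 => ?_⟩⟩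
  · have : n ≤ n ^ 3 := Nat.le_self_pow (by norm_num) n
    omega
  by_contra haS
  have ha0 : a ≠ 0 := by omega
  have hex : ∃ q : ℕ, q.Prime ∧ q % 4 = 3 ∧ ¬ Even (padicValNat q a) := by
    by_contra hne
    push Not at hne
    exact haS (mem_S_iff.2 fun q hq h4 => hne q (Nat.prime_of_mem_primeFactors hq) h4)
  obtain ⟨q, hq, h4, hodd⟩ := hex
  have hfact : Fact q.Prime := ⟨hq⟩
  have hqa : q ∣ a := by
    by_contra hd
    rw [padicValNat.eq_zero_of_not_dvd hd] at hodd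
    exact hodd ⟨0, rfl⟩
  have hqn : q ≤ n := (Nat.le_of_dvd (by omega) hqa).trans han
  have ht0 : t ≠ 0 := by omega
  have key : q ^ (padicValNat q a + 1) ∣ t := by
    by_contra hnd
    set i := padicValNat q t with hi
    have hile : i ≤ padicValNat q a := by
      by_contra hlt
      push Not at hlt
      exact hnd ((padicValNat_dvd_iff_le ht0).2 hlt)
    have hia : q ^ i ∣ a := (padicValNat_dvd_iff_le ha0).2 hile
    have hin : q ^ i ≤ n := (Nat.le_of_dvd (by omega) hia).trans han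
    rcases Nat.even_or_odd i with he | ho
    · obtain ⟨j, hj⟩ := he
      obtain ⟨t', ht'⟩ : q ^ i ∣ t := pow_padicValNat_dvd
      have hqt' : ¬ q ∣ t' := by
        intro hd
        have h1 : q ^ (i + 1) ∣ t := by
          rw [ht', pow_succ]
          exact Nat.mul_dvd_mul_left _ hd
        have := (padicValNat_dvd_iff_le ht0).1 h1
        omega
      obtain ⟨x, y, hs1, hs2, hd1, hd2⟩ := exists_exact_one hq h4 hqt'
      have hm : q ^ i * (x ^ 2 + y ^ 2) ∈ S := by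
        refine ⟨q ^ j * x, q ^ j * y, ?_⟩
        rw [hj]
        ring
      have hm1 : 1 ≤ q ^ i * (x ^ 2 + y ^ 2) :=
        Nat.one_le_iff_ne_zero.2 (Nat.mul_ne_zero (pow_pos hq.pos i).ne' (by omega))
      have hm2 : q ^ i * (x ^ 2 + y ^ 2) ≤ 5 * n ^ 3 := by
        calc q ^ i * (x ^ 2 + y ^ 2) ≤ n * (5 * q ^ 2) := Nat.mul_le_mul hin hs2
          _ ≤ n * (5 * n ^ 2) := Nat.mul_le_mul_left _
              (Nat.mul_le_mul_left _ (Nat.pow_le_pow_left hqn 2))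
          _ = 5 * n ^ 3 := by ring
      have h3 := hS _ hm1 hm2 hm
      have h5 : q ^ i * (x ^ 2 + y ^ 2) + t = q ^ i * (x ^ 2 + y ^ 2 + t') := by
        conv_lhs => rw [ht']
        ring
      rw [h5] at h3
      have hz : x ^ 2 + y ^ 2 + t' ≠ 0 := by omega
      refine not_mem_of_odd (Nat.mul_ne_zero (pow_pos hq.pos i).ne' hz) hq h4 ?_ h3
      have hv1 : padicValNat q (x ^ 2 + y ^ 2 + t') = 1 := by
        apply le_antisymm
        · by_contra hlt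
          push Not at hlt
          exact hd2 ((padicValNat_dvd_iff_le hz).2 hlt)
        · exact (padicValNat_dvd_iff_le hz).1 (by rwa [pow_one])
      rw [padicValNat.mul (pow_pos hq.pos i).ne' hz, padicValNat.prime_pow, hv1, hj]
      rintro ⟨c, hc⟩
      omega
    · obtain ⟨j, hj⟩ := ho
      have hm : q ^ (i + 1) ∈ S := by
        refine ⟨q ^ (j + 1), 0, ?_⟩
        rw [hj]
        ring
      have hm1 : 1 ≤ q ^ (i + 1) := Nat.one_le_iff_ne_zero.2 (pow_pos hq.pos _).ne'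
      have hm2 : q ^ (i + 1) ≤ 5 * n ^ 3 := by
        have h6 : n ^ 2 ≤ n ^ 3 := Nat.pow_le_pow_right hn (by norm_num)
        calc q ^ (i + 1) = q ^ i * q := pow_succ _ _
          _ ≤ n * n := Nat.mul_le_mul hin hqn
          _ = n ^ 2 := by ring
          _ ≤ 5 * n ^ 3 := by omega
      have h3 := hS _ hm1 hm2 hm
      rw [add_comm] at h3
      refine not_mem_of_odd (by omega) hq h4 ?_ h3
      rw [padic_add hq ht0 (dvd_refl _), ← hi, hj]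
      rintro ⟨c, hc⟩
      omega
  refine not_mem_of_odd (by omega) hq h4 ?_ h2
  rw [padic_add hq ha0 key]
  exact hodd

theorem oneSided_iff : TranslationProperty S ↔ OneSidedTranslation S := by
  refine ⟨fun h n hn => ?_, of_oneSided⟩
  obtain ⟨t, ht, hS⟩ := h n hn
  exact ⟨t, ht, fun a h1 h2 h3 => (hS a h1 h2).1 h3⟩

/-- any four members -/
theorem four (n M : ℕ) (hM : 1 ≤ M) (a₁ a₂ a₃ a₄ : ℕ) (h₃ : 1 ≤ a₃)
    (h₄ : 1 ≤ a₄) (m₁ : a₁ ∈ S) (m₂ : a₂ ∈ S) (m₃ : a₃ ∈ S) (m₄ : a₄ ∈ S) :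
    ∃ t : ℕ, 1 ≤ t ∧ M ∣ t ∧ (∀ a : ℕ, 1 ≤ a → a ≤ n → a ∉ S → a + t ∉ S) ∧
      a₁ + t ∈ S ∧ a₂ + t ∈ S ∧ a₃ + t ∈ S ∧ a₄ + t ∈ S := by
  obtain ⟨x1, y1, e1⟩ := m₁
  obtain ⟨x2, y2, e2⟩ := m₂
  have e1' : (a₁ : ℤ) = (x1 : ℤ) ^ 2 + (y1 : ℤ) ^ 2 := by exact_mod_cast e1
  have e2' : (a₂ : ℤ) = (x2 : ℤ) ^ 2 + (y2 : ℤ) ^ 2 := by exact_mod_cast e2
  by_cases hxy : (x1 : ℤ) = x2 ∧ (y1 : ℤ) = y2
  · obtain ⟨t, ht, hMt, hn, hl, hb, hb'⟩ := line n M hM 1 0 (x1 : ℤ) (Or.inl one_ne_zero)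
      a₃ a₄ h₃ m₃ h₄ m₄
    refine ⟨t, ht, hMt, hn, hl a₁ x1 y1 e1' (by ring), hl a₂ x2 y2 e2' ?_, hb, hb'⟩
    rw [hxy.1]
    ring
  · obtain ⟨t, ht, hMt, hn, hl, hb, hb'⟩ := line n M hM ((y2 : ℤ) - y1) ((x1 : ℤ) - x2)
      (((y2 : ℤ) - y1) * x1 + ((x1 : ℤ) - x2) * y1) (by
        by_contra hne
        push Not at hne
        exact hxy ⟨by linarith [hne.2], by linarith [hne.1]⟩)
      a₃ a₄ h₃ m₃ h₄ m₄
    exact ⟨t, ht, hMt, hn, hl a₁ x1 y1 e1' rfl, hl a₂ x2 y2 e2' (by ring), hb, hb'⟩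

/-- For all `n, M ≥ 1`, each line `α x + β y = γ` with integer coefficients and all positive
`b, b' ∈ S` there is `t ≥ 1`, a multiple of `M`, such that `a + t ∉ S` for each `a ∉ S` in
`[1, n]`, `x ^ 2 + y ^ 2 + t ∈ S` for all integer points `(x, y)` of the line, and
`b + t, b' + t ∈ S`. -/
theorem result (n M : ℕ) (hM : 1 ≤ M) (α β γ : ℤ) (hk : α ≠ 0 ∨ β ≠ 0)
    (b b' : ℕ) (hb1 : 1 ≤ b) (hb : b ∈ S) (hb1' : 1 ≤ b') (hb' : b' ∈ S) :
    ∃ t : ℕ, 1 ≤ t ∧ M ∣ t ∧ (∀ a : ℕ, 1 ≤ a → a ≤ n → a ∉ S → a + t ∉ S) ∧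
      (∀ (a : ℕ) (x y : ℤ), (a : ℤ) = x ^ 2 + y ^ 2 → α * x + β * y = γ → a + t ∈ S) ∧
      b + t ∈ S ∧ b' + t ∈ S :=
  line n M hM α β γ hk b b' hb1 hb hb1' hb'

end Pool.Agent.Results.MP_5d5287_nt.WeakTranslation
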